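import Pool.Agent.H.MP_9ce036_an.A

open Set Metric Filter Topology Complex
open scoped ComplexConjugate Real ContDiff

namespace Pool.Agent.H.MP_c6b81c_an

open H.MP_b3426d_an

lemma posL {n : ℕ} {ρ : EuclideanSpace ℂ (Fin n) → ℝ} {p ξ : EuclideanSpace ℂ (Fin n)} (hρ : ContDiffAt ℝ 2 ρ p) {q : ℂ → ℂ} {k : ℝ} (k0 : 0 < k)
    (dq : ∀ᶠ z in 𝓝 0, DifferentiableAt ℂ q z) (e : (q 0).re = ρ p)
    (h : ∀ᶠ z in 𝓝 (0 : ℂ), (q z).re + k * ‖z‖ ^ 2 ≤ ρ (p + z • ξ)) :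
    0 < fderiv ℝ (fderiv ℝ ρ) p ξ ξ + fderiv ℝ (fderiv ℝ ρ) p (I • ξ) (I • ξ) := by
  by_contra! c
  have := (Continuous.tendsto' (f := fun z : ℂ => z • ξ) (by fun_prop) 0 0 (by simp)).eventually
    (H.MP_9ce036_an.T2g hρ (η := k / 2 / (‖ξ‖ ^ 2 + 1)) (by positivity))
  generalize fderiv ℝ (fderiv ℝ ρ) p = B at *
  generalize fderiv ℝ ρ p = D at *
  refine RM' (c := 0) (f := fun z => q z - z * (D ξ - D (I • ξ) * I) - z ^ 2 * (B ξ ξ - B (I • ξ) (I • ξ) -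
    (B ξ (I • ξ) + B (I • ξ) ξ) * I) / (4 : ℝ)) (half_pos k0) (dq.mono fun z hz => by fun_prop) ?_
  filter_upwards [this, h] with z a b
  have d : z • ξ = z.re • ξ + z.im • I • ξ := by ext i; simp [Complex.ext_iff]; ring
  have b' : k / 2 / (‖ξ‖ ^ 2 + 1) * ‖ξ‖ ^ 2 ≤ k / 2 := by
    rw [div_mul_eq_mul_div, div_le_iff₀ (by positivity)]; linarith
  have a := (abs_le.1 a).2
  rw [norm_smul, mul_pow] at a
  nth_rw 2 3 4 [d] at a
  have f := mul_le_mul_of_nonneg_right b' (sq_nonneg ‖z‖)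
  generalize k / 2 / (‖ξ‖ ^ 2 + 1) = η at *
  have n := mul_nonneg (normSq_nonneg z) (neg_nonneg.2 c)
  simp [sq, e, normSq_apply] at a n ⊢
  linarith

lemma tc {s : ℝ} (s0 : 0 < s) (s1 : s ≤ 1) (n : ℕ) : ∃ c ≥ 0, ∀ (g : ℂ → ℂ) (A μ : ℝ), DifferentiableOn ℂ g (ball 0 1) →
    (∀ ζ ∈ ball (0 : ℂ) 1, ‖g ζ‖ ≤ A) → (∀ ζ ∈ ball (0 : ℂ) s, ‖g ζ‖ ≤ μ) → ∀ β ∈ ball (0 : ℂ) 1,
      ‖g β‖ ≤ c * μ + A * ‖β‖ ^ n := by
  induction n with
  | zero => exact ⟨0, le_rfl, fun g A μ _ h _ β k => by simpa using h β k⟩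
  | succ n ih =>
  obtain ⟨c, c0, ih⟩ := ih
  refine ⟨2 + c * (2 / s), by positivity, fun g A μ d h k β b => ?_⟩
  have g0 := k 0 (mem_ball_self s0)
  have := ih (dslope g 0) ((A + μ) / 1) ((μ + μ) / s) ((differentiableOn_dslope (ball_mem_nhds _ one_pos)).2 d)
    (fun ζ => norm_dslope_le_div_of_mapsTo_ball d fun ζ q => (dist_le_norm_add_norm _ _).trans (add_le_add (h ζ q) g0))
    (fun ζ => norm_dslope_le_div_of_mapsTo_ball (d.mono (ball_subset_ball s1)) fun ζ q =>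
      (dist_le_norm_add_norm _ _).trans (add_le_add (k ζ q) g0)) β b
  have e := congrArg norm (sub_smul_dslope g 0 β)
  have b1 := (mem_ball_zero_iff.1 b).le
  have μ0 := (norm_nonneg _).trans g0
  have := mul_le_mul_of_nonneg_left this (norm_nonneg β)
  have p := mul_le_of_le_one_right μ0 (pow_le_one₀ (norm_nonneg β) b1 (n := n + 1))
  have q := mul_le_of_le_one_left (show 0 ≤ c * ((μ + μ) / s) by positivity) b1
  rw [norm_smul, sub_zero] at e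
  refine (norm_le_norm_add_norm_sub' (g β) (g 0)).trans ?_
  rw [← e]
  ring_nf at *
  linarith

lemma sinlow (w : ℂ) : ‖w - round w.re‖ ≤ ‖sin (π * w)‖ := by
  have a := abs_sub_round w.re
  have := Real.pi_gt_three
  have b := Real.mul_abs_le_abs_sin (x := π * w.re - round w.re * π) (by
    rw [mul_comm _ π, ← mul_sub, abs_mul, abs_of_pos Real.pi_pos]; nlinarith)
  rw [Real.sin_sub_int_mul_pi, abs_mul, abs_zpow, abs_neg, abs_one, one_zpow, one_mul, mul_comm _ π, ← mul_sub, abs_mul,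
    abs_of_pos Real.pi_pos, ← mul_assoc, div_mul_cancel₀ _ Real.pi_ne_zero] at b
  have c := Real.self_le_sinh_iff.2 (abs_nonneg (π * w.im))
  rw [← Real.abs_sinh, abs_mul, abs_of_pos Real.pi_pos] at c
  have b := pow_le_pow_left₀ (abs_nonneg _) (show |w.re - round w.re| ≤ |Real.sin (π * w.re)| by
    linarith [abs_nonneg (w.re - round w.re)]) 2
  have c := pow_le_pow_left₀ (abs_nonneg _) (show |w.im| ≤ |Real.sinh (π * w.im)| by nlinarith [abs_nonneg w.im]) 2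
  refine (sq_le_sq₀ (norm_nonneg _) (norm_nonneg _)).1 ?_
  rw [sin_eq, ← ofReal_sin, ← ofReal_cos, ← ofReal_sinh, ← ofReal_cosh, ← ofReal_mul, ← ofReal_mul, Complex.sq_norm,
    Complex.sq_norm, normSq_add_mul_I, normSq_apply, re_ofReal_mul, im_ofReal_mul, mul_pow, mul_pow, Real.cosh_sq,
    Real.cos_sq']
  simp only [sq_abs, sub_re, sub_im, intCast_re, intCast_im] at *
  nlinarith

lemma mob {a ζ : ℂ} (ha : ‖a‖ < 1) (h : ‖ζ‖ < 1) : 1 - conj a * ζ ≠ 0 ∧ ‖(a - ζ) / (1 - conj a * ζ)‖ < 1 := by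
  have : ‖a - ζ‖ ^ 2 < ‖1 - conj a * ζ‖ ^ 2 := by
    have := mul_pos (sub_pos.2 (pow_lt_one₀ (norm_nonneg _) ha two_ne_zero))
      (sub_pos.2 (pow_lt_one₀ (norm_nonneg _) h two_ne_zero))
    simp [Complex.sq_norm, normSq_apply] at this ⊢
    linarith
  have := lt_of_pow_lt_pow_left₀ 2 (norm_nonneg _) this
  have n := (norm_nonneg _).trans_lt this
  exact ⟨norm_pos_iff.1 n, by rwa [norm_div, div_lt_one n]⟩

abbrev V := EuclideanSpace ℂ (Fin 3)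

noncomputable def P (x : V) : ℂ := x 2 * (sin (π * x 0) * sin (π * x 1))

noncomputable def r (m : ℕ) (B μ : ℝ) (x : V) : ℝ :=
  ‖x 2 ^ (m + 1)‖ ^ 2 + ‖(x 0 - x 1) / 4‖ ^ 2 + (‖x 0‖ ^ 2 + ‖x 1‖ ^ 2 + ‖x 2‖ ^ 2) / B ^ 2 + ‖P x / μ‖ ^ 2 - 1

variable {m : ℕ} {B μ : ℝ} {x : V}

lemma ci (i : Fin 3) : ContDiff ℂ ∞ fun p : V => p i := (EuclideanSpace.proj (𝕜 := ℂ) i).contDiff

lemma Pc : ContDiff ℂ ∞ P := (ci 2).mul ((contDiff_const.mul (ci 0)).csin.mul (contDiff_const.mul (ci 1)).csin)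

lemma rc : ContDiff ℝ ∞ (r m B μ) :=
  have c {f : V → ℂ} (h : ContDiff ℂ ∞ f) := (h.restrict_scalars ℝ).norm_sq ℂ
  ((((c ((ci 2).pow _)).add (c (((ci 0).sub (ci 1)).div_const _))).add
    ((((c (ci 0)).add (c (ci 1))).add (c (ci 2))).div_const _)).add (c (Pc.div_const _))).sub contDiff_const

lemma r1 (s : ℝ) : r m B μ !₂[x 0, x 1, s * x 2] = s ^ (2 * m + 2) * ‖x 2 ^ (m + 1)‖ ^ 2 + ‖(x 0 - x 1) / 4‖ ^ 2 +
    (‖x 0‖ ^ 2 + ‖x 1‖ ^ 2 + s ^ 2 * ‖x 2‖ ^ 2) / B ^ 2 + s ^ 2 * ‖P x / μ‖ ^ 2 - 1 := by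
  have : (|s| ^ (m + 1)) ^ 2 = s ^ (2 * m + 2) := by rw [← pow_mul, mul_comm, pow_mul, sq_abs, ← pow_mul]; rfl
  simp [r, P, mul_pow, this, mul_div_assoc, mul_assoc]

lemma r2 (s : ℝ) : r m B μ !₂[s * x 0, s * x 1, 0] =
    s ^ 2 * (‖(x 0 - x 1) / 4‖ ^ 2 + (‖x 0‖ ^ 2 + ‖x 1‖ ^ 2) / B ^ 2) - 1 := by
  simp [r, P, ← mul_sub, mul_pow, div_pow]; ring

lemma rb (B0 : 0 < B) (μ0 : 0 < μ) (h : r m B μ x < 0) :
    ‖x 2‖ < 1 ∧ ‖x 0 - x 1‖ < 4 ∧ ‖x‖ < B ∧ ‖P x‖ < μ := by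
  have l {a : ℝ} (h : a ^ 2 < 1) : a < 1 := lt_of_pow_lt_pow_left₀ 2 zero_le_one (by simpa only [one_pow])
  have : 0 ≤ (‖x 0‖ ^ 2 + ‖x 1‖ ^ 2 + ‖x 2‖ ^ 2) / B ^ 2 := by positivity
  have a := sq_nonneg ‖x 2 ^ (m + 1)‖
  have b := sq_nonneg ‖(x 0 - x 1) / 4‖
  have c := sq_nonneg ‖P x / μ‖
  rw [r] at h
  refine ⟨lt_of_pow_lt_pow_left₀ (m + 1) zero_le_one (by rw [one_pow, ← norm_pow]; exact l (by linarith)), ?_, ?_, ?_⟩
  · simpa [div_lt_one] using l (a := ‖(x 0 - x 1) / 4‖) (by linarith)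
  · refine (div_lt_one B0).1 (l ?_)
    rw [div_pow, EuclideanSpace.norm_sq_eq, Fin.sum_univ_three]; linarith
  · simpa [div_lt_one, abs_of_pos, μ0] using l (a := ‖P x / μ‖) (by linarith)

lemma cn : IsConnected {x | r m B μ x < 0} := by
  refine IsPathConnected.isConnected ⟨0, by simp [r, P], fun {x} h => JoinedIn.trans (y := !₂[x 0, x 1, 0])
    (.ofLine (f := fun s : ℝ => !₂[s * x 0, s * x 1, 0]) (by fun_prop) (by ext i; fin_cases i <;> simp) (by simp) ?_)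
    (.ofLine (f := fun s : ℝ => !₂[x 0, x 1, s * x 2]) (by fun_prop) (by simp) (by ext i; fin_cases i <;> simp) ?_)⟩ <;>
  · rintro _ ⟨s, k, rfl⟩
    refine lt_of_le_of_lt ?_ (mem_ofPred_eq ▸ h)
    have := pow_le_one₀ k.1 k.2 (n := 2)
    have := pow_le_one₀ k.1 k.2 (n := 2 * m + 2)
    first
    | rw [r1, r]; gcongr <;> exact mul_le_of_le_one_left (by positivity) ‹_›
    | rw [r2, r]
      refine sub_le_sub_right ((mul_le_of_le_one_left (by positivity) ‹_›).trans ?_) _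
      have : 0 ≤ ‖x 2‖ ^ 2 / B ^ 2 := by positivity
      rw [add_div _ (‖x 2‖ ^ 2)]
      linarith [sq_nonneg ‖x 2 ^ (m + 1)‖, sq_nonneg ‖P x / μ‖]

lemma gr (B0 : 0 < B) (h : r m B μ x = 0) : fderiv ℝ (r m B μ) x ≠ 0 := fun k => by
  have d {γ : ℝ → V} (c : DifferentiableAt ℝ γ 1) (e : γ 1 = x) : HasDerivAt (fun s => r m B μ (γ s)) 0 1 := by
    have := ((rc (m := m) (B := B) (μ := μ)).differentiable (by simp) x).hasFDerivAt.comp_hasDerivAt_of_eq 1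
      c.hasDerivAt e.symm
    rwa [k] at this
  have : Differentiable ℝ fun t : ℝ => (t : ℂ) := ofRealCLM.differentiable
  have p n := hasDerivAt_pow n (1 : ℝ)
  by_cases t : x 2 = 0
  · have := (d (γ := fun s => !₂[s * x 0, s * x 1, 0]) ((differentiableAt_piLp 2).2 fun i => by
      fin_cases i <;> simp <;> fun_prop) (by ext i; fin_cases i <;> simp [t])).unique
        ((((p 2).mul_const _).sub_const 1).congr_of_eventuallyEq (.of_forall r2))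
    simp [r, P, t] at h this
    linarith
  · have := (d (γ := fun s => !₂[x 0, x 1, s * x 2]) ((differentiableAt_piLp 2).2 fun i => by
      fin_cases i <;> simp <;> fun_prop) (by ext i; fin_cases i <;> simp)).unique
        ((((((((p _).mul_const _).add_const _).add ((((p 2).mul_const _).const_add _).div_const _)).add
          ((p 2).mul_const _)).sub_const 1)).congr_of_eventuallyEq (.of_forall r1))
    exact this.not_lt (by positivity)

lemma levi (B0 : 0 < B) {ξ : V} (h : ξ ≠ 0) :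
    0 < fderiv ℝ (fderiv ℝ (r m B μ)) x ξ ξ + fderiv ℝ (fderiv ℝ (r m B μ)) x (I • ξ) (I • ξ) := by
  have : Differentiable ℂ fun l : ℂ => P (x + l • ξ) := (Pc.differentiable (by simp)).comp (by fun_prop)
  refine posL (rc.contDiffAt.of_le (WithTop.coe_le_coe.2 le_top)) (k := ‖ξ‖ ^ 2 / B ^ 2) (q := fun l =>
    r m B μ x + (2 : ℝ) * (conj (x 2 ^ (m + 1)) * ((x 2 + l * ξ 2) ^ (m + 1) - x 2 ^ (m + 1)) +
      conj ((x 0 - x 1) / 4) * (l * (ξ 0 - ξ 1) / 4) + conj (P x / μ) * (P (x + l • ξ) / μ - P x / μ) +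
      (conj (x 0) * (l * ξ 0) + conj (x 1) * (l * ξ 1) + conj (x 2) * (l * ξ 2)) / (B ^ 2 : ℝ))) (by positivity)
    (.of_forall fun l => by fun_prop) (by simp) (.of_forall fun l => ?_)
  have a := nsq (x 2 ^ (m + 1)) ((x 2 + l * ξ 2) ^ (m + 1) - x 2 ^ (m + 1))
  have b := nsq ((x 0 - x 1) / 4) (l * (ξ 0 - ξ 1) / 4)
  have c := nsq (P x / μ) (P (x + l • ξ) / μ - P x / μ)
  rw [show (x 0 - x 1) / 4 + l * (ξ 0 - ξ 1) / 4 = (x 0 + l * ξ 0 - (x 1 + l * ξ 1)) / 4 by ring] at b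
  simp only [r, PiLp.add_apply, PiLp.smul_apply, smul_eq_mul, add_re, re_ofReal_mul, add_sub_cancel, ofReal_re,
    div_ofReal_re, nsq (x _), norm_mul l, mul_pow, EuclideanSpace.norm_sq_eq, Fin.sum_univ_three] at a b c ⊢
  rw [a, b, c]
  have := add_nonneg (add_nonneg (sq_nonneg ‖(x 2 + l * ξ 2) ^ (m + 1) - x 2 ^ (m + 1)‖)
    (sq_nonneg ‖l * (ξ 0 - ξ 1) / 4‖)) (sq_nonneg ‖P (x + l • ξ) / μ - P x / μ‖)
  ring_nf at this ⊢
  linarith

lemma step {b : ℝ} (B1 : 1 ≤ B) (b1 : b < 1) : ∃ μ > 0, ∀ (m : ℕ) (φ : ℂ → V) (β : ℂ), ‖β‖ ≤ b →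
    DifferentiableOn ℂ φ (ball 0 1) → MapsTo φ (ball 0 1) {x | r m B μ x < 0} →
    ‖1 - φ β 2‖ ≤ ‖1 - φ 0 2‖ * ((1 + b) / (1 - b)) ∧ (1 / 2 ≤ ‖φ β 2‖ → (φ β 1).re ≤ (φ 0 1).re + 10) := by
  obtain ⟨n, hn⟩ := exists_pow_lt_of_lt_one (show 0 < 1 / 4 / (3 * B) ^ 2 by positivity) b1
  obtain ⟨c, c0, H⟩ := tc (s := 1 / (8 * B)) (by positivity) ((div_le_one (by positivity)).2 (by linarith)) n
  obtain ⟨μ, μ0, e⟩ : ∃ μ > 0, (c + 1) * ((12 * B) ^ 2 * μ) = 1 / 4 :=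
    ⟨1 / 4 / (c + 1) / (12 * B) ^ 2, by positivity, by field_simp⟩
  refine ⟨μ, μ0, fun m φ β k D M => ?_⟩
  have d i : DifferentiableOn ℂ (fun ζ => φ ζ i) (ball 0 1) :=
    (EuclideanSpace.proj (𝕜 := ℂ) i).differentiable.comp_differentiableOn D
  have h ζ (q : ζ ∈ ball (0 : ℂ) 1) := rb (by linarith) μ0 (M q)
  have k' := mem_ball_zero_iff.2 (k.trans_lt b1)
  have z := mem_ball_self (x := (0 : ℂ)) one_pos
  have b0 := (norm_nonneg _).trans k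
  refine ⟨?_, fun t => ?_⟩
  · have := borelCaratheodory_zero (f := fun ζ => φ ζ 2 - φ 0 2) (M := ‖1 - φ 0 2‖)
      (norm_pos_iff.2 (sub_ne_zero.2 fun e => by simpa [← e] using (h 0 z).1)) ((d 2).sub_const _) (fun ζ q =>
        le_trans (sub_le_sub_right ((re_le_norm _).trans (h ζ q).1.le) _) (re_le_norm (1 - φ 0 2))) one_pos k' (by simp)
    have e : 2 * ‖1 - φ 0 2‖ * ‖β‖ / (1 - ‖β‖) ≤ 2 * ‖1 - φ 0 2‖ * b / (1 - b) := by gcongr
    refine (norm_sub_le_norm_sub_add_norm_sub 1 (φ 0 2) _).trans ((add_le_add_right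
      ((norm_sub_rev _ _).trans_le (this.trans e)) _).trans_eq ?_)
    have := (sub_pos.2 b1).ne'
    field_simp; ring
  have A i ζ (q : ζ ∈ ball (0 : ℂ) 1) : ‖φ ζ i - round (φ 0 i).re‖ ≤ 3 * B := by
    have a ζ q := (PiLp.norm_apply_le (φ ζ) i).trans_lt (h ζ q).2.2.1
    have := abs_le.1 (abs_sub_round (φ 0 i).re)
    have := abs_le.1 ((abs_re_le_norm _).trans (a 0 z).le)
    have : |(round (φ 0 i).re : ℝ)| ≤ 2 * B := abs_le.2 ⟨by linarith, by linarith⟩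
    refine (norm_sub_le _ _).trans ?_
    rw [norm_intCast]; linarith [a ζ q]
  have sb := ball_subset_ball (x := (0 : ℂ)) ((div_le_one (by positivity)).2 (by linarith) : 1 / (8 * B) ≤ 1)
  have S i ζ (q : ζ ∈ ball (0 : ℂ) (1 / (8 * B))) : ‖φ ζ i - round (φ 0 i).re‖ ≤ 12 * B * ‖sin (π * φ ζ i)‖ := by
    have s := sinlow (φ ζ i)
    by_cases e : round (φ ζ i).re = round (φ 0 i).re
    · rw [← e]; nlinarith [norm_nonneg (sin (π * φ ζ i))]
    have u := dist_le_div_mul_dist_of_mapsTo_ball (R₂ := 2 * B) (d i) (fun ζ q => (dist_le_norm_add_norm _ _).trans (by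
      linarith [(PiLp.norm_apply_le (φ ζ) i).trans_lt (h ζ q).2.2.1, (PiLp.norm_apply_le (φ 0) i).trans_lt (h 0 z).2.2.1]))
        (sb q)
    have v := (lt_div_iff₀ (by positivity)).1 (mem_ball.1 q)
    have : ‖φ ζ i - φ 0 i‖ ≤ 1 / 4 := by rw [dist_eq_norm] at u; linarith
    have w := abs_le.1 ((abs_re_le_norm _).trans this)
    have y := abs_le.1 (abs_sub_round (φ 0 i).re)
    have o : (1 : ℝ) ≤ |(round (φ ζ i).re - round (φ 0 i).re : ℝ)| := by exact_mod_cast Int.one_le_abs (sub_ne_zero.2 e)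
    have a := abs_le.1 ((abs_re_le_norm _).trans s)
    simp only [sub_re, intCast_re] at w a
    have : 1 / 4 ≤ ‖sin (π * φ ζ i)‖ := by rcases le_abs.1 o with o | o <;> linarith
    nlinarith [A i ζ (sb q)]
  have := H (fun ζ => φ ζ 2 * ((φ ζ 0 - round (φ 0 0).re) * (φ ζ 1 - round (φ 0 1).re))) ((3 * B) ^ 2)
    ((12 * B) ^ 2 * μ) ((d 2).mul (((d 0).sub_const _).mul ((d 1).sub_const _))) (fun ζ q => by
      rw [norm_mul, norm_mul, sq]
      exact (mul_le_of_le_one_left (by positivity) (h ζ q).1.le).trans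
        (mul_le_mul (A 0 ζ q) (A 1 ζ q) (norm_nonneg _) (by positivity))) (fun ζ q => by
      refine le_trans ?_ (mul_le_mul_of_nonneg_left (h ζ (sb q)).2.2.2.le (by positivity))
      simp only [P, norm_mul]
      refine (mul_le_mul_of_nonneg_left (mul_le_mul (S 0 ζ q) (S 1 ζ q) (norm_nonneg _) (by positivity))
        (norm_nonneg _)).trans_eq (by ring)) β k'
  have p : (3 * B) ^ 2 * ‖β‖ ^ n ≤ 1 / 4 := by
    rw [lt_div_iff₀' (by positivity)] at hn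
    exact le_trans (by gcongr) hn.le
  have q : 0 < (12 * B) ^ 2 * μ := by positivity
  rw [norm_mul, norm_mul] at this
  have u (ζ q) := abs_le.1 ((abs_re_le_norm _).trans (h ζ q).2.1.le)
  have u0 := u 0 z
  have u1 := u β k'
  have y i := abs_le.1 (abs_sub_round (φ 0 i).re)
  have a i := abs_le.1 (abs_re_le_norm (φ β i - round (φ 0 i).re))
  simp only [sub_re, intCast_re] at u0 u1 a
  by_contra! f
  have := one_le_mul_of_one_le_of_one_le (a := ‖φ β 0 - round (φ 0 0).re‖) (b := ‖φ β 1 - round (φ 0 1).re‖)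
    (by linarith [a 0, y 0]) (by linarith [a 1, y 1])
  linarith [mul_le_mul t this zero_le_one (norm_nonneg _)]

end Pool.Agent.H.MP_c6b81c_an
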